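import Pool.Agent.W680.WH.Stm

/-!
# Project WHH: part LEX, existence of lifts
-/

set_option autoImplicit false

open scoped ComplexConjugate InnerProductSpace
open ContinuousLinearMap Filter

namespace Pool.Agent.W428.WH.Lex

open Pool.Agent.W680.WH

section abstr

variable {A : Type*} [Ring A] [Algebra ℂ A]

theorem inter (r : ℂ) (Z V G : A) (hZ : (1 + r • Z) * V * Z = (Z + r • (1:A)) * V)
    (hG : (1 - r • Z) * G = 1) : V * ((Z - r • (1:A)) * G) = Z * V := by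
  have h1 : V * (Z - r • (1:A)) = Z * V * (1 - r • Z) := by
    have h2 : V * Z + r • (Z * V * Z) = Z * V + r • V := by
      have := hZ
      simp only [add_mul, one_mul, smul_mul_assoc] at this
      exact this
    have h3 : V * Z - r • V = Z * V - r • (Z * V * Z) := by
      rw [sub_eq_sub_iff_add_eq_add, h2]
    simp only [mul_sub, mul_one, mul_smul_comm]
    exact h3
  rw [← mul_assoc, h1, mul_assoc, hG, mul_one]

theorem twoinv (r : ℂ) (Z2 Zs G2 Gs : A) (h21 : Z2 * Zs = 1)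
    (hG2' : G2 * (1 - r • Z2) = 1) (hGs : (1 - r • Zs) * Gs = 1) :
    ((Z2 - r • (1:A)) * G2) * ((Zs - r • (1:A)) * Gs) = 1 := by
  have h1 : Zs - r • (1:A) = (1 - r • Z2) * Zs := by
    simp only [sub_mul, one_mul, smul_mul_assoc, h21]
  have h2 : (Z2 - r • (1:A)) * Zs = 1 - r • Zs := by
    simp only [sub_mul, one_mul, smul_mul_assoc, h21]
  calc ((Z2 - r • (1:A)) * G2) * ((Zs - r • (1:A)) * Gs)
      = (Z2 - r • (1:A)) * (G2 * (1 - r • Z2)) * Zs * Gs := by rw [h1]; simp only [mul_assoc]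
    _ = ((Z2 - r • (1:A)) * Zs) * Gs := by rw [hG2', mul_one]
    _ = 1 := by rw [h2, hGs]

theorem conjX (W V Zs Q X QQ P2i : A) (hVW : V * W = 1)
    (hZ : W * Zs * V = P2i) (hQ : W * Q * V = QQ)
    (hX : X = -((2 : ℂ) • Q + Q * Zs * Q)) :
    W * X * V = -((2 : ℂ) • QQ + QQ * P2i * QQ) := by
  have h1 : QQ * P2i * QQ = W * (Q * Zs * Q) * V := by
    rw [← hQ, ← hZ]
    calc W * Q * V * (W * Zs * V) * (W * Q * V)
        = W * Q * (V * W) * Zs * (V * W) * Q * V := by simp only [mul_assoc]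
      _ = W * (Q * Zs * Q) * V := by rw [hVW]; simp only [mul_assoc, mul_one, one_mul]
  have h2 : (2 : ℂ) • QQ = W * ((2 : ℂ) • Q) * V := by
    rw [← hQ]
    simp only [mul_smul_comm, smul_mul_assoc]
  rw [h1, h2, hX]
  simp only [mul_neg, neg_mul, mul_add, add_mul]

theorem offd (W V Z X P Y K d : A) (hVW : V * W = 1) (hVP : V * P = Z * V)
    (hY : Y = K + (P * d - d * P)) (hK : W * X * V = K) :
    V * Y + V * d * P = Z * (V * d) + X * V := by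
  have h1 : V * K = X * V := by
    rw [← hK, ← mul_assoc, ← mul_assoc, hVW, one_mul]
  rw [hY, mul_add, mul_sub, h1]
  have h2 : V * (P * d) = Z * (V * d) := by rw [← mul_assoc, hVP, mul_assoc]
  rw [h2, mul_assoc V d P]
  abel

theorem comm_inv (r : ℂ) (S H : A) (h : (1 - r • S) * H = 1) (h' : H * (1 - r • S) = 1) :
    H * (S - r • (1:A)) = (S - r • (1:A)) * H := by
  have h1 : (1 - r • S) * (S - r • (1:A)) = (S - r • (1:A)) * (1 - r • S) := by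
    simp only [sub_mul, mul_sub, one_mul, mul_one, smul_mul_assoc, mul_smul_comm, smul_sub]
    abel
  calc H * (S - r • (1:A)) = H * (S - r • (1:A)) * ((1 - r • S) * H) := by rw [h, mul_one]
    _ = H * ((S - r • (1:A)) * (1 - r • S)) * H := by simp only [mul_assoc]
    _ = (H * (1 - r • S)) * (S - r • (1:A)) * H := by rw [← h1]; simp only [mul_assoc]
    _ = (S - r • (1:A)) * H := by rw [h', one_mul]

variable [StarRing A] [StarModule ℂ A]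

theorem starG (r : ℝ) (Z Zs G Gs : A) (hZs : star Z = Zs) (hG : (1 - (r:ℂ) • Z) * G = 1)
    (hGs : (1 - (r:ℂ) • Zs) * Gs = 1) (hGs' : Gs * (1 - (r:ℂ) • Zs) = 1) :
    star ((Z - (r:ℂ) • (1:A)) * G) = (Zs - (r:ℂ) • (1:A)) * Gs := by
  have h1 : star G * (1 - (r:ℂ) • Zs) = 1 := by
    have := congrArg star hG
    rw [star_mul, star_sub, star_smul, star_one, hZs] at this
    simpa using this
  have h2 : star G = Gs := by
    calc star G = star G * ((1 - (r:ℂ) • Zs) * Gs) := by rw [hGs, mul_one]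
      _ = Gs := by rw [← mul_assoc, h1, one_mul]
  rw [star_mul, star_sub, star_smul, star_one, hZs, h2]
  have h3 : star (r:ℂ) = (r:ℂ) := by simp
  rw [h3]
  exact comm_inv (r:ℂ) Zs Gs hGs hGs'

theorem hyp (r : ℝ) (Z Z2 Zs V G Gs G2 Q X Y d : A)
    (hV1 : star V * V = 1) (hV2 : V * star V = 1) (hZs : star Z = Zs)
    (h21 : Z2 * Zs = 1) (_h22 : Zs * Z2 = 1)
    (hZ : (1 + (r:ℂ) • Z) * V * Z = (Z + (r:ℂ) • (1:A)) * V)
    (hG : (1 - (r:ℂ) • Z) * G = 1)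
    (hG2' : G2 * (1 - (r:ℂ) • Z2) = 1)
    (hGs : (1 - (r:ℂ) • Zs) * Gs = 1) (hGs' : Gs * (1 - (r:ℂ) • Zs) = 1)
    (hQ : Q = Z - Z2) (hX : X = -((2 : ℂ) • Q + Q * Zs * Q))
    (hY : Y = -((2 : ℂ) • ((Z - (r:ℂ) • (1:A)) * G - (Z2 - (r:ℂ) • (1:A)) * G2) +
      ((Z - (r:ℂ) • (1:A)) * G - (Z2 - (r:ℂ) • (1:A)) * G2) * ((Zs - (r:ℂ) • (1:A)) * Gs) *
        ((Z - (r:ℂ) • (1:A)) * G - (Z2 - (r:ℂ) • (1:A)) * G2)) +
      ((Z - (r:ℂ) • (1:A)) * G * d - d * ((Z - (r:ℂ) • (1:A)) * G))) :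
    V * ((Z - (r:ℂ) • (1:A)) * G) = Z * V ∧
    V * Y + V * d * ((Z - (r:ℂ) • (1:A)) * G) = Z * (V * d) + X * V := by
  have hVP := inter (r:ℂ) Z V G hZ hG
  refine ⟨hVP, ?_⟩
  have hP : star V * Z * V = (Z - (r:ℂ) • (1:A)) * G := by
    rw [mul_assoc, ← hVP, ← mul_assoc, hV1, one_mul]
  have hPi : star V * Zs * V = (Zs - (r:ℂ) • (1:A)) * Gs := by
    rw [← starG r Z Zs G Gs hZs hG hGs hGs', ← hP]
    simp only [star_mul, star_star, hZs, mul_assoc]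
  have hinv := twoinv (r:ℂ) Z2 Zs G2 Gs h21 hG2' hGs
  have hP2 : star V * Z2 * V = (Z2 - (r:ℂ) • (1:A)) * G2 := by
    have h5 : (star V * Zs * V) * (star V * Z2 * V) = 1 := by
      calc (star V * Zs * V) * (star V * Z2 * V)
          = star V * Zs * (V * star V) * Z2 * V := by simp only [mul_assoc]
        _ = star V * (Zs * Z2) * V := by rw [hV2, mul_one]; simp only [mul_assoc]
        _ = 1 := by rw [_h22, mul_one, hV1]
    calc star V * Z2 * V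
        = ((Z2 - (r:ℂ) • (1:A)) * G2) * ((Zs - (r:ℂ) • (1:A)) * Gs) * (star V * Z2 * V) := by
          rw [hinv, one_mul]
      _ = (Z2 - (r:ℂ) • (1:A)) * G2 := by rw [mul_assoc _ _ (star V * Z2 * V), ← hPi, h5, mul_one]
  have hQQ : star V * Q * V = (Z - (r:ℂ) • (1:A)) * G - (Z2 - (r:ℂ) • (1:A)) * G2 := by
    rw [hQ, mul_sub, sub_mul, hP, hP2]
  have hK := conjX (star V) V Zs Q X _ _ hV2 hPi hQQ hX
  exact offd (star V) V Z X _ Y _ d hV2 hVP hY hK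

end abstr

theorem jj_zero (h : S_OPJ) : jj (0 : E) = 0 := by
  obtain ⟨-, -, -, -, -, -, hadd, -⟩ := h
  have := hadd 0 0
  rw [add_zero] at this
  exact left_eq_add.1 this

theorem R_norm_le (k : Circle) : ‖R k‖ ≤ 1 := by
  unfold R wsh
  exact LinearMap.mkContinuous_norm_le _ zero_le_one _

theorem rot (h3 : S_BLA) (h10 : S_OPR) (h11 : S_OPJ) (k : Circle) (φ : Mob) (hc : φ.c = k)
    (ha : φ.a = 0) : Lift φ (R k⁻¹) 0 := by
  obtain ⟨hRe, hRZ, hRX, hRR, hR1, hRa, hRco⟩ := h10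
  obtain ⟨hB1, hB2, hB3, hB4, hB5, hB6, hB7⟩ := h3
  have hk : (k : ℂ) * ((k⁻¹ : Circle) : ℂ) = 1 := by
    rw [← Circle.coe_mul, mul_inv_cancel, Circle.coe_one]
  refine ⟨?_, ?_, ?_, ?_, ?_, ?_⟩
  · rw [hRa, hRR, inv_mul_cancel, hR1]
  · rw [hRa, hRR, mul_inv_cancel, hR1]
  · intro f
    exact h11.2.2.2.2.1 k⁻¹ f
  · rw [map_zero, neg_zero]
  · intro f
    change jj (0 : E) = 0
    exact jj_zero h11
  · have hop : φ.op T = (k : ℂ) • blk Z X Z := by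
      unfold Mob.op mob
      rw [hc, ha, map_zero, zero_smul, zero_smul, sub_zero, sub_zero, Ring.inverse_one, mul_one]
      rfl
    rw [hop, hB4, mul_zero, hB1]
    change _ = blk Z X Z * _
    rw [hB1, mul_zero, zero_mul, add_zero, zero_add, mul_smul_comm, mul_smul_comm, hRZ, hRX,
      smul_smul, smul_smul, hk, one_smul, one_smul]

theorem hyper (h3 : S_BLA) (h4 : S_BLM) (h5 : S_INV) (h8 : S_OPA)
    (r : ℝ) (hr0 : 0 ≤ r) (hr1 : r < 1) (V d : E →L[ℂ] E)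
    (hV1 : adjoint V * V = 1) (hV2 : V * adjoint V = 1)
    (hV3 : (1 + (r : ℂ) • Z) * V * Z = (Z + (r : ℂ) • (1 : E →L[ℂ] E)) * V)
    (hV4 : ∀ f, jj (V f) = V (jj f))
    (hd1 : adjoint d = -d) (hd2 : ∀ f, jj (d f) = d (jj f))
    (hd3 : ∀ G P P2 P2i : E →L[ℂ] E, G = Ring.inverse (1 - (r : ℂ) • Z) →
      P = (Z - (r : ℂ) • 1) * G →
      P2 = (Z2 - (r : ℂ) • 1) * Ring.inverse (1 - (r : ℂ) • Z2) →
      P2i = (Zs - (r : ℂ) • 1) * Ring.inverse (1 - (r : ℂ) • Zs) →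
      ((1 - r ^ 2 : ℝ) : ℂ) • (G * X * G) =
        -((2 : ℂ) • (P - P2) + (P - P2) * P2i * (P - P2)) + (P * d - d * P))
    (ρ : Mob) (hc : ρ.c = 1) (ha : ρ.a = r) : Lift ρ V d := by
  obtain ⟨hB1, hB2, hB3, hB4, hB5, hB6, hB7⟩ := h3
  have hrn : ‖(r : ℂ)‖ < 1 := by
    rw [Complex.norm_real, Real.norm_of_nonneg hr0]; exact hr1
  obtain ⟨u1, u2, u3, u4, u5, u6⟩ := h5 (r : ℂ) hrn
  refine ⟨hV1, hV2, hV4, hd1, hd2, ?_⟩
  have hpz : ρ.op Z = (Z - (r : ℂ) • (1 : E →L[ℂ] E)) * Ring.inverse (1 - (r : ℂ) • Z) := by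
    unfold Mob.op mob
    rw [hc, ha, Complex.conj_ofReal, one_smul]
  have hop : ρ.op T = blk ((Z - (r : ℂ) • (1 : E →L[ℂ] E)) * Ring.inverse (1 - (r : ℂ) • Z))
      (((1 - r ^ 2 : ℝ) : ℂ) • (Ring.inverse (1 - (r : ℂ) • Z) * X *
        Ring.inverse (1 - (r : ℂ) • Z)))
      ((Z - (r : ℂ) • (1 : E →L[ℂ] E)) * Ring.inverse (1 - (r : ℂ) • Z)) := by
    have := h4.2.2.2 ρ X
    rw [hpz, hc, ha, Complex.conj_ofReal] at this
    have e : (1 : ℂ) * (1 - (r : ℂ) * r) = ((1 - r ^ 2 : ℝ) : ℂ) := by push_cast; ring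
    rw [e] at this
    exact this
  have hY := hd3 _ _ _ _ rfl rfl rfl rfl
  obtain ⟨⟨-, -, h21, h22⟩, ⟨hZs, -⟩, -, -⟩ := h8
  have main := hyp r Z Z2 Zs V (Ring.inverse (1 - (r : ℂ) • Z)) (Ring.inverse (1 - (r : ℂ) • Zs))
    (Ring.inverse (1 - (r : ℂ) • Z2)) Q X _ d hV1 hV2 hZs h21 h22 hV3
    (Ring.mul_inverse_cancel _ u1) (Ring.inverse_mul_cancel _ u3)
    (Ring.mul_inverse_cancel _ u4) (Ring.inverse_mul_cancel _ u4) rfl rfl hY
  obtain ⟨m1, m2⟩ := main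
  rw [hop, hB1]
  change _ = blk Z X Z * _
  rw [hB1, m1, m2]

theorem main (h1 : S_UNI) (h2 : S_DR) (h3 : S_MOBG) (h4 : S_BLA) (h5 : S_BLM) (h6 : S_INV)
    (h7 : S_LMU) (h8 : S_OPA) (h9 : S_OPR) (h10 : S_OPJ) (h11 : S_OPC) : S_LEX := by
  refine ⟨fun k φ hc ha => rot h4 h9 h10 k φ hc ha, ?_⟩
  obtain ⟨C, hC⟩ := h2
  refine ⟨C, ?_⟩
  intro φ
  obtain ⟨k, l, r, α, β, ρ, σ, hr0, hr1, hα1, hα2, hβ1, hβ2, hρ1, hρ2, hσ, hφ⟩ := h3.2.2.2.2 φ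
  obtain ⟨V, hV1, hV2, hV3, hV4, γ, hγ0, hγ1, hγ2⟩ := h1 r hr0 hr1
  obtain ⟨d, hd1, hd2, hdC, hd3⟩ := hC r hr0 hr1
  have hL : ∀ ψ : Mob, ψ.c = 1 → ψ.a = r → Lift ψ V d := fun ψ hc ha =>
    hyper h4 h5 h6 h8 r hr0 hr1 V d hV1 hV2 hV3 hV4 hd1 hd2 hd3 ψ hc ha
  have hLα := rot h4 h9 h10 k α hα1 hα2
  have hLβ := rot h4 h9 h10 l β hβ1 hβ2
  have hLσ := h7.1 α ρ σ _ _ _ _ hσ hLα (hL ρ hρ1 hρ2)
  have hLφ := h7.1 σ β φ _ _ _ _ hφ hLσ hLβ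
  refine ⟨k⁻¹, l⁻¹, r, V, _, γ, hr0, hr1, hLφ, ?_, ?_, fun ψ hc ha => ⟨d, hL ψ hc ha⟩,
    hγ0, hγ1, hγ2⟩
  · rw [mul_zero, zero_mul, add_zero, zero_add]
    have n1 := R_norm_le l⁻¹
    have n2 : ‖adjoint (R l⁻¹)‖ ≤ 1 := by
      rw [LinearIsometryEquiv.norm_map]
      exact n1
    calc ‖adjoint (R l⁻¹) * d * R l⁻¹‖ ≤ ‖adjoint (R l⁻¹) * d‖ * ‖R l⁻¹‖ := norm_mul_le _ _
      _ ≤ ‖adjoint (R l⁻¹)‖ * ‖d‖ * ‖R l⁻¹‖ := by gcongr; exact norm_mul_le _ _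
      _ ≤ 1 * ‖d‖ * 1 := by gcongr
      _ ≤ C := by rw [one_mul, mul_one]; exact hdC
  · unfold Pos
    obtain ⟨hRe, hRZ, hRX, hRR, hR1, hRa, hRco⟩ := h9
    have e0 : R l⁻¹ (eb 0) = eb 0 := by
      rw [hRe, zpow_zero, Circle.coe_one, one_smul]
    have e1 : (R k⁻¹ * V * R l⁻¹) (eb 0) = R k⁻¹ (V (eb 0)) := by
      change R k⁻¹ (V (R l⁻¹ (eb 0))) = _
      rw [e0]
    have e2 := h11.2.2.2.2.2.2.2.2.2.1 0 (R k⁻¹ (V (eb 0)))
    rw [e1, e2, hRco, hγ2, om_zero]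
    simpa using hγ1

end Pool.Agent.W428.WH.Lex
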